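import Pool.Agent.Helper75.PX.Stmts6

/-! Row E2M of the sheet `Pool.Agent.Helper75.PX.Stmts6`. -/

set_option autoImplicit false

open Polynomial

namespace Pool.Agent.Helper75.PX

universe u

namespace E2M88

theorem e2m_det {S : Type*} [CommRing S] (N : Matrix (Fin 4) (Fin 4) S) : N.det =
    N 0 0 * (N 1 1 * N 2 2 * N 3 3 - N 1 1 * N 2 3 * N 3 2 - N 1 2 * N 2 1 * N 3 3 +
      N 1 2 * N 2 3 * N 3 1 + N 1 3 * N 2 1 * N 3 2 - N 1 3 * N 2 2 * N 3 1) -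
    N 0 1 * (N 1 0 * N 2 2 * N 3 3 - N 1 0 * N 2 3 * N 3 2 - N 1 2 * N 2 0 * N 3 3 +
      N 1 2 * N 2 3 * N 3 0 + N 1 3 * N 2 0 * N 3 2 - N 1 3 * N 2 2 * N 3 0) +
    N 0 2 * (N 1 0 * N 2 1 * N 3 3 - N 1 0 * N 2 3 * N 3 1 - N 1 1 * N 2 0 * N 3 3 +
      N 1 1 * N 2 3 * N 3 0 + N 1 3 * N 2 0 * N 3 1 - N 1 3 * N 2 1 * N 3 0) -
    N 0 3 * (N 1 0 * N 2 1 * N 3 2 - N 1 0 * N 2 2 * N 3 1 - N 1 1 * N 2 0 * N 3 2 +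
      N 1 1 * N 2 2 * N 3 0 + N 1 2 * N 2 0 * N 3 1 - N 1 2 * N 2 1 * N 3 0) := by
  rw [Matrix.det_succ_row_zero]
  simp only [Fin.sum_univ_succ, Matrix.det_fin_three, Matrix.submatrix_apply]
  simp [Fin.succAbove, Fin.succ, Fin.lt_def]
  ring

theorem e2m_char {R : Type*} [CommRing R] (M : Matrix (Fin 4) (Fin 4) R) :
    ∃ t3 t1 t0 : R, M.charpoly = X ^ 4 + C t3 * X ^ 3 +
      C ((M 0 0 * M 1 1 - M 0 1 * M 1 0) + (M 0 0 * M 2 2 - M 0 2 * M 2 0) +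
    (M 0 0 * M 3 3 - M 0 3 * M 3 0) + (M 1 1 * M 2 2 - M 1 2 * M 2 1) +
    (M 1 1 * M 3 3 - M 1 3 * M 3 1) + (M 2 2 * M 3 3 - M 2 3 * M 3 2)) * X ^ 2 + C t1 * X + C t0 := by
  have e : ∀ i, M.charmatrix i i = X - C (M i i) := fun i => Matrix.charmatrix_apply_eq M i
  have f : ∀ i j, i ≠ j → M.charmatrix i j = - C (M i j) := fun i j h =>
    Matrix.charmatrix_apply_ne M i j h
  refine ⟨-(M 0 0 + M 1 1 + M 2 2 + M 3 3),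
    -((M 0 0 * (M 1 1 * M 2 2 - M 1 2 * M 2 1) - M 0 1 * (M 1 0 * M 2 2 - M 1 2 * M 2 0) +
        M 0 2 * (M 1 0 * M 2 1 - M 1 1 * M 2 0)) +
      (M 0 0 * (M 1 1 * M 3 3 - M 1 3 * M 3 1) - M 0 1 * (M 1 0 * M 3 3 - M 1 3 * M 3 0) +
        M 0 3 * (M 1 0 * M 3 1 - M 1 1 * M 3 0)) +
      (M 0 0 * (M 2 2 * M 3 3 - M 2 3 * M 3 2) - M 0 2 * (M 2 0 * M 3 3 - M 2 3 * M 3 0) +
        M 0 3 * (M 2 0 * M 3 2 - M 2 2 * M 3 0)) +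
      (M 1 1 * (M 2 2 * M 3 3 - M 2 3 * M 3 2) - M 1 2 * (M 2 1 * M 3 3 - M 2 3 * M 3 1) +
        M 1 3 * (M 2 1 * M 3 2 - M 2 2 * M 3 1))), M.det, ?_⟩
  rw [Matrix.charpoly, e2m_det, e2m_det M]
  rw [e 0, e 1, e 2, e 3, f 0 1 (by decide), f 0 2 (by decide), f 0 3 (by decide),
    f 1 0 (by decide), f 1 2 (by decide), f 1 3 (by decide), f 2 0 (by decide), f 2 1 (by decide),
    f 2 3 (by decide), f 3 0 (by decide), f 3 1 (by decide), f 3 2 (by decide)]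
  simp only [map_add, map_sub, map_mul, map_neg]
  ring

theorem e2m {R : Type*} [CommRing R] (M : Matrix (Fin 4) (Fin 4) R) :
  M.charpoly.coeff 2 = (M 0 0 * M 1 1 - M 0 1 * M 1 0) + (M 0 0 * M 2 2 - M 0 2 * M 2 0) +
    (M 0 0 * M 3 3 - M 0 3 * M 3 0) + (M 1 1 * M 2 2 - M 1 2 * M 2 1) +
    (M 1 1 * M 3 3 - M 1 3 * M 3 1) + (M 2 2 * M 3 3 - M 2 3 * M 3 2) := by
  obtain ⟨t3, t1, t0, h⟩ := e2m_char M
  rw [h]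
  generalize (M 0 0 * M 1 1 - M 0 1 * M 1 0) + (M 0 0 * M 2 2 - M 0 2 * M 2 0) +
    (M 0 0 * M 3 3 - M 0 3 * M 3 0) + (M 1 1 * M 2 2 - M 1 2 * M 2 1) +
    (M 1 1 * M 3 3 - M 1 3 * M 3 1) + (M 2 2 * M 3 3 - M 2 3 * M 3 2) = t2
  simp only [coeff_add, coeff_C_mul, coeff_X_pow]
  simp [coeff_X]

end E2M88

theorem st_E2M : ST_E2M.{u} := fun _ _ M => E2M88.e2m M

end Pool.Agent.Helper75.PX
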